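import Mathlib
import Pool.Agent.Helper60_AK.Main

set_option autoImplicit false

namespace Pool.Agent.Results.MP_d7b937_an.DimTwo

/-- **The space `A^∞` is dense in `A^k` on every smooth pseudoconvex domain of `ℂ²`.**
Let `Ω = {ρ < 0}` be a bounded connected domain in `ℂ²`, where `ρ` is a smooth function with
`dρ ≠ 0` on `ρ = 0`, and let the Levi form be nonnegative at every boundary point. Then for
every `k ≥ 1`, every function `f` holomorphic on `Ω` and of class `C^k` on the closure of `Ω`,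
and every `ε > 0`, there is a function `g` holomorphic on `Ω` and `C^∞` on the closure of `Ω` such
that all derivatives of `f - g` of order at most `k` have norm less than `ε` on `Ω`.
(This is the frozen statement S06337 in dimension two.) -/
theorem result (Ω : Set (Fin 2 → ℂ)) (ρ : (Fin 2 → ℂ) → ℝ)
    (hρ : ContDiff ℝ ((⊤ : ℕ∞) : WithTop ℕ∞) ρ)
    (hΩ : Ω = {z | ρ z < 0})
    (hb : Bornology.IsBounded Ω)
    (hc : IsConnected Ω)
    (hgrad : ∀ p, ρ p = 0 → fderiv ℝ ρ p ≠ 0)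
    (hlevi : ∀ p, ρ p = 0 → ∀ w : Fin 2 → ℂ, fderiv ℝ ρ p w = 0 →
        fderiv ℝ ρ p (Complex.I • w) = 0 →
        0 ≤ iteratedFDeriv ℝ 2 ρ p ![w, w]
          + iteratedFDeriv ℝ 2 ρ p ![Complex.I • w, Complex.I • w])
    (k : ℕ) (hk : 1 ≤ k)
    (f : (Fin 2 → ℂ) → ℂ) (hf : DifferentiableOn ℂ f Ω)
    (hfk : ContDiffOn ℝ (k : WithTop ℕ∞) f (closure Ω))
    (ε : ℝ) (hε : 0 < ε) :
    ∃ g : (Fin 2 → ℂ) → ℂ, DifferentiableOn ℂ g Ω ∧
      ContDiffOn ℝ ((⊤ : ℕ∞) : WithTop ℕ∞) g (closure Ω) ∧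
      ∀ j : ℕ, j ≤ k → ∀ x ∈ Ω,
        ‖iteratedFDeriv ℝ j (fun z => f z - g z) x‖ < ε :=
  Pool.Agent.AK.res Ω ρ hρ hΩ hb hc hgrad hlevi k hk f hf hfk ε hε

end Pool.Agent.Results.MP_d7b937_an.DimTwo
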